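import Pool.Agent.W169.AF.Stm

/-!
Project AF (helper169), part APX: the mollified L-function is a short Dirichlet polynomial plus a
small error.
-/

set_option autoImplicit false

namespace Pool.Agent.W198.AF.Apx

open Finset
open Pool.Agent.H24R2.DZ (bb mo cc yy ph)
open Pool.Agent.W169.AF

noncomputable section

theorem ph_bd (u : ℝ) : 0 ≤ ph u ∧ ph u ≤ 1 :=
  ⟨Real.smoothTransition.nonneg _, Real.smoothTransition.le_one _⟩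

theorem mo_bd (θ L : ℝ) (h : ℕ) : ‖(mo θ L h : ℂ)‖ ≤ 1 := by
  rw [Complex.norm_real, Real.norm_eq_abs]
  unfold mo
  rw [abs_mul]
  have h1 : |((ArithmeticFunction.moebius h : ℤ) : ℝ)| ≤ 1 := by
    exact_mod_cast ArithmeticFunction.abs_moebius_le_one
  have h2 : |ph (Real.log h / (θ * L))| ≤ 1 := by
    rw [abs_of_nonneg (ph_bd _).1]; exact (ph_bd _).2
  calc _ ≤ (1 : ℝ) * 1 := mul_le_mul h1 h2 (abs_nonneg _) zero_le_one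
  _ = 1 := one_mul 1

theorem mo_zero (θ : ℝ) (Q h : ℕ) (hθ : 0 < θ) (hQ : 2 ≤ Q) (hh : yy θ Q < h) :
    mo θ (Real.log Q) h = 0 := by
  have hQ' : (2 : ℝ) ≤ Q := by exact_mod_cast hQ
  have hL : 0 < Real.log Q := Real.log_pos (by linarith)
  have h1 : (Q : ℝ) ^ θ < h := lt_of_le_of_lt (Nat.le_ceil _) (by exact_mod_cast hh)
  have h2 : θ * Real.log Q < Real.log h := by
    rw [← Real.log_rpow (by linarith)]
    exact Real.log_lt_log (by positivity) h1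
  unfold mo ph
  rw [Real.smoothTransition.zero_of_nonpos, mul_zero]
  have : 1 < Real.log h / (θ * Real.log Q) := by
    rw [lt_div_iff₀ (by positivity)]; linarith
  linarith

theorem sum_div (N : ℕ) (F : ℕ → ℕ → ℂ) :
    ∑ n ∈ Icc 1 N, ∑ h ∈ n.divisors, F h n =
      ∑ h ∈ Icc 1 N, ∑ m ∈ Icc 1 (N / h), F h (h * m) := by
  rw [Finset.sum_sigma', Finset.sum_sigma']
  refine Finset.sum_nbij' (fun p => ⟨p.2, p.1 / p.2⟩) (fun p => ⟨p.1 * p.2, p.1⟩) ?_ ?_ ?_ ?_ ?_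
  · rintro ⟨n, h⟩ hp
    simp only [Finset.mem_sigma, Finset.mem_Icc, Nat.mem_divisors] at hp ⊢
    obtain ⟨⟨h1, h2⟩, h3, h4⟩ := hp
    have hpos : 0 < h := Nat.pos_of_dvd_of_pos h3 (by omega)
    have hle : h ≤ n := Nat.le_of_dvd (by omega) h3
    refine ⟨⟨hpos, hle.trans h2⟩, Nat.div_pos hle hpos, Nat.div_le_div_right h2⟩
  · rintro ⟨h, m⟩ hp
    simp only [Finset.mem_sigma, Finset.mem_Icc, Nat.mem_divisors] at hp ⊢
    obtain ⟨⟨h1, h2⟩, h3, h4⟩ := hp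
    have h5 : h * m ≤ N := by
      rw [mul_comm]
      exact (Nat.le_div_iff_mul_le (by omega)).1 h4
    have h6 : 1 ≤ h * m := Nat.mul_pos h1 h3
    exact ⟨⟨h6, h5⟩, Dvd.intro _ rfl, by omega⟩
  · rintro ⟨n, h⟩ hp
    simp only [Finset.mem_sigma, Finset.mem_Icc, Nat.mem_divisors] at hp
    obtain ⟨⟨h1, h2⟩, h3, h4⟩ := hp
    simp only [Nat.mul_div_cancel' h3]
  · rintro ⟨h, m⟩ hp
    simp only [Finset.mem_sigma, Finset.mem_Icc] at hp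
    obtain ⟨⟨h1, h2⟩, h3, h4⟩ := hp
    simp only [Nat.mul_div_cancel_left m h1]
  · rintro ⟨n, h⟩ hp
    simp only [Finset.mem_sigma, Finset.mem_Icc, Nat.mem_divisors] at hp
    obtain ⟨⟨h1, h2⟩, h3, h4⟩ := hp
    simp only [Nat.mul_div_cancel' h3]

theorem yy_le (θ : ℝ) (Q : ℕ) (hθ : 0 < θ) (hQ : 2 ≤ Q) : (yy θ Q : ℝ) ≤ 2 * (Q : ℝ) ^ θ := by
  have hQ' : (2 : ℝ) ≤ Q := by exact_mod_cast hQ
  have h1 : (1 : ℝ) ≤ (Q : ℝ) ^ θ := Real.one_le_rpow (by linarith) hθ.le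
  have h2 := (Nat.ceil_lt_add_one (by positivity : (0 : ℝ) ≤ (Q : ℝ) ^ θ)).le
  unfold yy
  linarith

theorem yy_le_NQ (θ : ℝ) (Q : ℕ) (hθ' : θ ≤ 1 / 200) (hQ : 2 ≤ Q) :
    yy θ Q ≤ NQ Q := by
  have hQ' : (2 : ℝ) ≤ Q := by exact_mod_cast hQ
  apply Nat.le_floor
  have h1 : (1 : ℝ) ≤ (Q : ℝ) ^ (1 / 2 : ℝ) := Real.one_le_rpow (by linarith) (by norm_num)
  have h2 := (Nat.ceil_lt_add_one (by positivity : (0 : ℝ) ≤ (Q : ℝ) ^ θ)).le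
  have h3 : (Q : ℝ) ^ θ ≤ (Q : ℝ) ^ (1 / 2 : ℝ) :=
    Real.rpow_le_rpow_of_exponent_le (by linarith) (by linarith)
  have h4 : (Q : ℝ) ^ (3 / 2 : ℝ) = Q * (Q : ℝ) ^ (1 / 2 : ℝ) := by
    rw [show (3 / 2 : ℝ) = 1 + 1 / 2 by norm_num, Real.rpow_add (by linarith), Real.rpow_one]
  unfold yy
  rw [h4]
  nlinarith

theorem NQ_ge (Q : ℕ) (hQ : 2 ≤ Q) : (Q : ℝ) ^ (3 / 2 : ℝ) / 2 ≤ NQ Q := by
  have hQ' : (2 : ℝ) ≤ Q := by exact_mod_cast hQ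
  have h2 : (2 : ℝ) ≤ (Q : ℝ) ^ (3 / 2 : ℝ) := by
    calc (2 : ℝ) ≤ (Q : ℝ) ^ (1 : ℝ) := by rw [Real.rpow_one]; exact hQ'
    _ ≤ (Q : ℝ) ^ (3 / 2 : ℝ) := Real.rpow_le_rpow_of_exponent_le (by linarith) (by norm_num)
  have h3 := Nat.sub_one_lt_floor ((Q : ℝ) ^ (3 / 2 : ℝ))
  unfold NQ
  linarith

theorem ident (θ : ℝ) (Q q : ℕ) (hθ : 0 < θ) (hθ' : θ ≤ 1 / 200) (hQ : 2 ≤ Q)
    (χ : DirichletCharacter ℂ q) (s β : ℂ) :
    SX θ Q q χ s β = ∑ h ∈ Icc 1 (yy θ Q), (mo θ (Real.log Q) h : ℂ) * χ (h : ZMod q) *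
      (h : ℂ) ^ (-(s + β)) * ∑ m ∈ Icc 1 (NQ Q / h), χ (m : ZMod q) * (m : ℂ) ^ (-s) := by
  unfold SX
  have e1 : ∀ n ∈ Icc 1 (NQ Q), cc (bb θ (Real.log Q) β) n * χ (n : ZMod q) * (n : ℂ) ^ (-s) =
      ∑ h ∈ n.divisors, bb θ (Real.log Q) β h * (χ (n : ZMod q) * (n : ℂ) ^ (-s)) := by
    intro n _
    unfold cc
    rw [mul_assoc, Finset.sum_mul]
  rw [Finset.sum_congr rfl e1,
    sum_div (NQ Q) (fun h n => bb θ (Real.log Q) β h * (χ (n : ZMod q) * (n : ℂ) ^ (-s)))]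
  have hsub : Icc 1 (yy θ Q) ⊆ Icc 1 (NQ Q) := Finset.Icc_subset_Icc_right (yy_le_NQ θ Q hθ' hQ)
  rw [← Finset.sum_subset hsub]
  · apply Finset.sum_congr rfl
    intro h hh
    rw [Finset.mem_Icc] at hh
    have hh0 : (h : ℂ) ≠ 0 := by
      have : h ≠ 0 := by omega
      exact_mod_cast this
    rw [Finset.mul_sum]
    apply Finset.sum_congr rfl
    intro m _
    have e2 : ((h * m : ℕ) : ZMod q) = (h : ZMod q) * (m : ZMod q) := by push_cast; ring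
    have e3 : ((h * m : ℕ) : ℂ) ^ (-s) = (h : ℂ) ^ (-s) * (m : ℂ) ^ (-s) := by
      push_cast
      exact Complex.natCast_mul_natCast_cpow h m (-s)
    have e4 : (h : ℂ) ^ (-(s + β)) = (h : ℂ) ^ (-s) * (h : ℂ) ^ (-β) := by
      rw [neg_add, Complex.cpow_add _ _ hh0]
    rw [e2, map_mul, e3, e4]
    unfold bb
    ring
  · intro h _ hh2
    rw [Finset.mem_Icc, not_and, not_le] at hh2
    rename_i hh1
    rw [Finset.mem_Icc] at hh1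
    have : mo θ (Real.log Q) h = 0 := mo_zero θ Q h hθ hQ (hh2 hh1.1)
    apply Finset.sum_eq_zero
    intro m _
    unfold bb
    rw [this]
    simp

theorem term_bd (C : ℝ) (hC : 0 < C) (q Q h : ℕ) (hq : 2 ≤ q) (hqQ : q ≤ Q) (hh : 1 ≤ h)
    (hhN : h ≤ NQ Q)
    (s β : ℂ) (hs : 1 / 2 ≤ s.re) (hs2 : s.re ≤ 2) (hβ : ‖β‖ ≤ 1) :
    (h : ℝ) ^ (-(s + β)).re * (C * (1 + ‖s‖) * (Real.sqrt q * Real.log q) *
      ((NQ Q / h : ℕ) : ℝ) ^ (-s.re)) ≤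
      8 * C * (1 + ‖s‖) * (Q : ℝ) ^ (-(1 / 4) : ℝ) * Real.log Q * h := by
  have hq' : (2 : ℝ) ≤ q := by exact_mod_cast hq
  have hqQ' : (q : ℝ) ≤ Q := by exact_mod_cast hqQ
  have hQ' : (2 : ℝ) ≤ Q := by linarith
  have hh' : (1 : ℝ) ≤ h := by exact_mod_cast hh
  have hhN' : (h : ℝ) ≤ NQ Q := by exact_mod_cast hhN
  have hN1 : (1 : ℝ) ≤ NQ Q := hh'.trans hhN'
  have hbre : -1 ≤ β.re := by
    have := Complex.abs_re_le_norm β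
    have := abs_le.1 (this.trans hβ)
    exact this.1
  -- the exponent
  have h1 : (h : ℝ) ^ (-(s + β)).re ≤ (h : ℝ) ^ (1 - s.re) := by
    apply Real.rpow_le_rpow_of_exponent_le hh'
    simp only [Complex.neg_re, Complex.add_re]
    linarith
  -- the length
  have h2 : (NQ Q : ℝ) / (2 * h) ≤ ((NQ Q / h : ℕ) : ℝ) := by
    have hdiv : 1 ≤ NQ Q / h := Nat.div_pos hhN hh
    have hlt : NQ Q < h * (NQ Q / h + 1) := Nat.lt_mul_div_succ _ hh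
    have hlt' : (NQ Q : ℝ) < h * (((NQ Q / h : ℕ) : ℝ) + 1) := by exact_mod_cast hlt
    have hdiv' : (1 : ℝ) ≤ ((NQ Q / h : ℕ) : ℝ) := by exact_mod_cast hdiv
    rw [div_le_iff₀ (by positivity)]
    nlinarith
  have h3 : ((NQ Q / h : ℕ) : ℝ) ^ (-s.re) ≤ ((NQ Q : ℝ) / (2 * h)) ^ (-s.re) :=
    Real.rpow_le_rpow_of_nonpos (by positivity) h2 (by linarith)
  have h4 : ((NQ Q : ℝ) / (2 * h)) ^ (-s.re) = (NQ Q : ℝ) ^ (-s.re) * (2 * h) ^ s.re := by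
    rw [Real.div_rpow (by positivity) (by positivity), Real.rpow_neg (by positivity) s.re,
      Real.rpow_neg (by positivity) s.re, div_inv_eq_mul]
  have h5 : (2 * (h : ℝ)) ^ s.re ≤ 4 * (h : ℝ) ^ s.re := by
    rw [Real.mul_rpow (by norm_num) (by positivity)]
    have : (2 : ℝ) ^ s.re ≤ (2 : ℝ) ^ (2 : ℝ) :=
      Real.rpow_le_rpow_of_exponent_le (by norm_num) hs2
    have h22 : (2 : ℝ) ^ (2 : ℝ) = 4 := by norm_num
    rw [h22] at this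
    exact mul_le_mul_of_nonneg_right this (by positivity)
  have h6 : (NQ Q : ℝ) ^ (-s.re) ≤ 2 * (Q : ℝ) ^ (-(3 / 4) : ℝ) := by
    calc (NQ Q : ℝ) ^ (-s.re) ≤ (NQ Q : ℝ) ^ (-(1 / 2) : ℝ) :=
        Real.rpow_le_rpow_of_exponent_le hN1 (by linarith)
    _ ≤ ((Q : ℝ) ^ (3 / 2 : ℝ) / 2) ^ (-(1 / 2) : ℝ) :=
        Real.rpow_le_rpow_of_nonpos (by positivity) (NQ_ge Q (hq.trans hqQ)) (by norm_num)
    _ = ((Q : ℝ) ^ (3 / 2 : ℝ)) ^ (-(1 / 2) : ℝ) / (2 : ℝ) ^ (-(1 / 2) : ℝ) :=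
        Real.div_rpow (by positivity) (by norm_num) _
    _ = (Q : ℝ) ^ (-(3 / 4) : ℝ) * (2 : ℝ) ^ (1 / 2 : ℝ) := by
        rw [← Real.rpow_mul (by positivity), Real.rpow_neg (by norm_num) (1 / 2), div_inv_eq_mul]
        norm_num
    _ ≤ (Q : ℝ) ^ (-(3 / 4) : ℝ) * 2 := by
        apply mul_le_mul_of_nonneg_left _ (by positivity)
        calc (2 : ℝ) ^ (1 / 2 : ℝ) ≤ (2 : ℝ) ^ (1 : ℝ) :=
          Real.rpow_le_rpow_of_exponent_le (by norm_num) (by norm_num)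
        _ = 2 := Real.rpow_one 2
    _ = 2 * (Q : ℝ) ^ (-(3 / 4) : ℝ) := by ring
  have h7 : Real.sqrt q * Real.log q ≤ (Q : ℝ) ^ (1 / 2 : ℝ) * Real.log Q := by
    rw [← Real.sqrt_eq_rpow]
    apply mul_le_mul (Real.sqrt_le_sqrt hqQ') (Real.log_le_log (by linarith) hqQ')
      (Real.log_nonneg (by linarith)) (Real.sqrt_nonneg _)
  have h8 : ((NQ Q / h : ℕ) : ℝ) ^ (-s.re) ≤ 8 * (Q : ℝ) ^ (-(3 / 4) : ℝ) * (h : ℝ) ^ s.re := by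
    calc ((NQ Q / h : ℕ) : ℝ) ^ (-s.re) ≤ (NQ Q : ℝ) ^ (-s.re) * (2 * h) ^ s.re := h3.trans_eq h4
    _ ≤ (2 * (Q : ℝ) ^ (-(3 / 4) : ℝ)) * (4 * (h : ℝ) ^ s.re) :=
        mul_le_mul h6 h5 (by positivity) (by positivity)
    _ = 8 * (Q : ℝ) ^ (-(3 / 4) : ℝ) * (h : ℝ) ^ s.re := by ring
  have hlog0 : 0 ≤ Real.log q := Real.log_nonneg (by linarith)
  have hlogQ0 : 0 ≤ Real.log Q := Real.log_nonneg (by linarith)
  calc (h : ℝ) ^ (-(s + β)).re * (C * (1 + ‖s‖) * (Real.sqrt q * Real.log q) *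
      ((NQ Q / h : ℕ) : ℝ) ^ (-s.re))
      ≤ (h : ℝ) ^ (1 - s.re) * (C * (1 + ‖s‖) * ((Q : ℝ) ^ (1 / 2 : ℝ) * Real.log Q) *
        (8 * (Q : ℝ) ^ (-(3 / 4) : ℝ) * (h : ℝ) ^ s.re)) := by
        apply mul_le_mul h1 _ (by positivity) (by positivity)
        apply mul_le_mul _ h8 (by positivity) (by positivity)
        exact mul_le_mul_of_nonneg_left h7 (by positivity)
    _ = 8 * C * (1 + ‖s‖) * ((Q : ℝ) ^ (1 / 2 : ℝ) * (Q : ℝ) ^ (-(3 / 4) : ℝ)) * Real.log Q *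
        ((h : ℝ) ^ (1 - s.re) * (h : ℝ) ^ s.re) := by ring
    _ = 8 * C * (1 + ‖s‖) * (Q : ℝ) ^ (-(1 / 4) : ℝ) * Real.log Q * h := by
        rw [← Real.rpow_add (by linarith), ← Real.rpow_add (by linarith)]
        norm_num

/-- part APX -/
theorem apx (hTL : S_TL) : S_APX := by
  obtain ⟨C, hC, hTL⟩ := hTL
  refine ⟨800 * C, by positivity, ?_⟩
  intro θ hθ hθ' Q q hq hqQ χ hχ s β hs hs2 hβ
  have hQ : 2 ≤ Q := hq.trans hqQ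
  have hQ' : (2 : ℝ) ≤ Q := by exact_mod_cast hQ
  rw [ident θ Q q hθ hθ' hQ]
  unfold MX
  rw [Finset.mul_sum, ← Finset.sum_sub_distrib]
  have e1 : ∀ h ∈ Icc 1 (yy θ Q), ‖LF q χ s * ((mo θ (Real.log Q) h : ℂ) * χ (h : ZMod q) *
      (h : ℂ) ^ (-(s + β))) - (mo θ (Real.log Q) h : ℂ) * χ (h : ZMod q) *
      (h : ℂ) ^ (-(s + β)) * ∑ m ∈ Icc 1 (NQ Q / h), χ (m : ZMod q) * (m : ℂ) ^ (-s)‖ ≤
      8 * C * (1 + ‖s‖) * (Q : ℝ) ^ (-(1 / 4) : ℝ) * Real.log Q * (yy θ Q) := by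
    intro h hh
    rw [Finset.mem_Icc] at hh
    have hhN : h ≤ NQ Q := hh.2.trans (yy_le_NQ θ Q hθ' hQ)
    have hT := hTL q hq χ hχ s hs (NQ Q / h) (Nat.div_pos hhN hh.1)
    have e2 : LF q χ s * ((mo θ (Real.log Q) h : ℂ) * χ (h : ZMod q) *
      (h : ℂ) ^ (-(s + β))) - (mo θ (Real.log Q) h : ℂ) * χ (h : ZMod q) *
      (h : ℂ) ^ (-(s + β)) * ∑ m ∈ Icc 1 (NQ Q / h), χ (m : ZMod q) * (m : ℂ) ^ (-s) =
      ((mo θ (Real.log Q) h : ℂ) * χ (h : ZMod q)) * ((h : ℂ) ^ (-(s + β)) *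
        (LF q χ s - ∑ m ∈ Icc 1 (NQ Q / h), χ (m : ZMod q) * (m : ℂ) ^ (-s))) := by ring
    rw [e2, norm_mul, norm_mul, norm_mul, Complex.norm_natCast_cpow_of_pos hh.1]
    have h1 : ‖(mo θ (Real.log Q) h : ℂ)‖ * ‖χ (h : ZMod q)‖ ≤ 1 := by
      calc _ ≤ (1 : ℝ) * 1 := mul_le_mul (mo_bd _ _ _) (DirichletCharacter.norm_le_one χ _)
            (norm_nonneg _) zero_le_one
      _ = 1 := one_mul 1
    calc _ ≤ 1 * ((h : ℝ) ^ (-(s + β)).re *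
          ‖LF q χ s - ∑ m ∈ Icc 1 (NQ Q / h), χ (m : ZMod q) * (m : ℂ) ^ (-s)‖) :=
          mul_le_mul_of_nonneg_right h1 (by positivity)
    _ ≤ 1 * ((h : ℝ) ^ (-(s + β)).re * (C * (1 + ‖s‖) * (Real.sqrt q * Real.log q) *
          ((NQ Q / h : ℕ) : ℝ) ^ (-s.re))) := by
          rw [one_mul, one_mul]
          exact mul_le_mul_of_nonneg_left hT (by positivity)
    _ ≤ 8 * C * (1 + ‖s‖) * (Q : ℝ) ^ (-(1 / 4) : ℝ) * Real.log Q * h := by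
          rw [one_mul]
          exact term_bd C hC q Q h hq hqQ hh.1 hhN s β hs hs2 hβ
    _ ≤ 8 * C * (1 + ‖s‖) * (Q : ℝ) ^ (-(1 / 4) : ℝ) * Real.log Q * (yy θ Q) := by
          have : (h : ℝ) ≤ yy θ Q := by exact_mod_cast hh.2
          have hlogQ0 : 0 ≤ Real.log Q := Real.log_nonneg (by linarith)
          exact mul_le_mul_of_nonneg_left this (by positivity)
  refine (norm_sum_le _ _).trans ((Finset.sum_le_sum e1).trans ?_)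
  rw [Finset.sum_const, Nat.card_Icc, nsmul_eq_mul, Nat.add_sub_cancel]
  have hlogQ0 : 0 ≤ Real.log Q := Real.log_nonneg (by linarith)
  have hy := yy_le θ Q hθ hQ
  have hlog : Real.log Q ≤ (Q : ℝ) ^ (1 / 25 : ℝ) / (1 / 25) :=
    Real.log_le_rpow_div (by linarith) (by norm_num)
  have hy2 : (yy θ Q : ℝ) * yy θ Q ≤ 4 * (Q : ℝ) ^ (1 / 100 : ℝ) := by
    calc (yy θ Q : ℝ) * yy θ Q ≤ (2 * (Q : ℝ) ^ θ) * (2 * (Q : ℝ) ^ θ) :=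
        mul_le_mul hy hy (by positivity) (by positivity)
    _ = 4 * (Q : ℝ) ^ (θ + θ) := by rw [Real.rpow_add (by linarith)]; ring
    _ ≤ 4 * (Q : ℝ) ^ (1 / 100 : ℝ) := by
        apply mul_le_mul_of_nonneg_left _ (by norm_num)
        exact Real.rpow_le_rpow_of_exponent_le (by linarith) (by linarith)
  calc (yy θ Q : ℝ) * (8 * C * (1 + ‖s‖) * (Q : ℝ) ^ (-(1 / 4) : ℝ) * Real.log Q * (yy θ Q))
      = 8 * C * (1 + ‖s‖) * (Q : ℝ) ^ (-(1 / 4) : ℝ) * (Real.log Q * ((yy θ Q : ℝ) * yy θ Q)) := by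
        ring
    _ ≤ 8 * C * (1 + ‖s‖) * (Q : ℝ) ^ (-(1 / 4) : ℝ) * (((Q : ℝ) ^ (1 / 25 : ℝ) / (1 / 25)) *
        (4 * (Q : ℝ) ^ (1 / 100 : ℝ))) := by
        apply mul_le_mul_of_nonneg_left _ (by positivity)
        exact mul_le_mul hlog hy2 (by positivity) (by positivity)
    _ = 800 * C * (1 + ‖s‖) * ((Q : ℝ) ^ (-(1 / 4) : ℝ) * (Q : ℝ) ^ (1 / 25 : ℝ) *
        (Q : ℝ) ^ (1 / 100 : ℝ)) := by ring
    _ = 800 * C * (1 + ‖s‖) * (Q : ℝ) ^ (-(1 / 5) : ℝ) := by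
        rw [← Real.rpow_add (by linarith), ← Real.rpow_add (by linarith)]
        norm_num

end

end Pool.Agent.W198.AF.Apx
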