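import Pool.Agent.W169.AF.Stm2
import Pool.Agent.W198.AF.Apx

/-!
Project AF (helper169), part APXw: the wide version of APX.
-/

set_option autoImplicit false

namespace Pool.Agent.W198.AF.Apxw

open Finset
open Pool.Agent.H24R2.DZ (bb mo cc yy ph)
open Pool.Agent.W169.AF
open Pool.Agent.W198.AF.Apx

noncomputable section

theorem term_bdw (C : ℝ) (hC : 0 < C) (q Q h : ℕ) (hq : 2 ≤ q) (hqQ : q ≤ Q) (hh : 1 ≤ h)
    (hhN : h ≤ NQ Q)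
    (s β : ℂ) (hs : 1 / 2 ≤ s.re) (hs2 : s.re ≤ 7) (hβ : ‖β‖ ≤ 13) :
    (h : ℝ) ^ (-(s + β)).re * (C * (1 + ‖s‖) * (Real.sqrt q * Real.log q) *
      ((NQ Q / h : ℕ) : ℝ) ^ (-s.re)) ≤
      256 * C * (1 + ‖s‖) * (Q : ℝ) ^ (-(1 / 4) : ℝ) * Real.log Q * (h : ℝ) ^ 13 := by
  have hq' : (2 : ℝ) ≤ q := by exact_mod_cast hq
  have hqQ' : (q : ℝ) ≤ Q := by exact_mod_cast hqQ
  have hQ' : (2 : ℝ) ≤ Q := by linarith
  have hh' : (1 : ℝ) ≤ h := by exact_mod_cast hh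
  have hhN' : (h : ℝ) ≤ NQ Q := by exact_mod_cast hhN
  have hN1 : (1 : ℝ) ≤ NQ Q := hh'.trans hhN'
  have hbre : -13 ≤ β.re := by
    have := Complex.abs_re_le_norm β
    have := abs_le.1 (this.trans hβ)
    exact this.1
  -- the exponent
  have h1 : (h : ℝ) ^ (-(s + β)).re ≤ (h : ℝ) ^ (13 - s.re) := by
    apply Real.rpow_le_rpow_of_exponent_le hh'
    simp only [Complex.neg_re, Complex.add_re]
    linarith
  -- the length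
  have h2 : (NQ Q : ℝ) / (2 * h) ≤ ((NQ Q / h : ℕ) : ℝ) := by
    have hdiv : 1 ≤ NQ Q / h := Nat.div_pos hhN hh
    have hlt : NQ Q < h * (NQ Q / h + 1) := Nat.lt_mul_div_succ _ hh
    have hlt' : (NQ Q : ℝ) < h * (((NQ Q / h : ℕ) : ℝ) + 1) := by exact_mod_cast hlt
    have hdiv' : (1 : ℝ) ≤ ((NQ Q / h : ℕ) : ℝ) := by exact_mod_cast hdiv
    rw [div_le_iff₀ (by positivity)]
    nlinarith
  have h3 : ((NQ Q / h : ℕ) : ℝ) ^ (-s.re) ≤ ((NQ Q : ℝ) / (2 * h)) ^ (-s.re) :=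
    Real.rpow_le_rpow_of_nonpos (by positivity) h2 (by linarith)
  have h4 : ((NQ Q : ℝ) / (2 * h)) ^ (-s.re) = (NQ Q : ℝ) ^ (-s.re) * (2 * h) ^ s.re := by
    rw [Real.div_rpow (by positivity) (by positivity), Real.rpow_neg (by positivity) s.re,
      Real.rpow_neg (by positivity) s.re, div_inv_eq_mul]
  have h5 : (2 * (h : ℝ)) ^ s.re ≤ 128 * (h : ℝ) ^ s.re := by
    rw [Real.mul_rpow (by norm_num) (by positivity)]
    have : (2 : ℝ) ^ s.re ≤ (2 : ℝ) ^ (7 : ℝ) :=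
      Real.rpow_le_rpow_of_exponent_le (by norm_num) hs2
    have h22 : (2 : ℝ) ^ (7 : ℝ) = 128 := by norm_num
    rw [h22] at this
    exact mul_le_mul_of_nonneg_right this (by positivity)
  have h6 : (NQ Q : ℝ) ^ (-s.re) ≤ 2 * (Q : ℝ) ^ (-(3 / 4) : ℝ) := by
    calc (NQ Q : ℝ) ^ (-s.re) ≤ (NQ Q : ℝ) ^ (-(1 / 2) : ℝ) :=
        Real.rpow_le_rpow_of_exponent_le hN1 (by linarith)
    _ ≤ ((Q : ℝ) ^ (3 / 2 : ℝ) / 2) ^ (-(1 / 2) : ℝ) :=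
        Real.rpow_le_rpow_of_nonpos (by positivity) (NQ_ge Q (hq.trans hqQ)) (by norm_num)
    _ = ((Q : ℝ) ^ (3 / 2 : ℝ)) ^ (-(1 / 2) : ℝ) / (2 : ℝ) ^ (-(1 / 2) : ℝ) :=
        Real.div_rpow (by positivity) (by norm_num) _
    _ = (Q : ℝ) ^ (-(3 / 4) : ℝ) * (2 : ℝ) ^ (1 / 2 : ℝ) := by
        rw [← Real.rpow_mul (by positivity), Real.rpow_neg (by norm_num) (1 / 2), div_inv_eq_mul]
        norm_num
    _ ≤ (Q : ℝ) ^ (-(3 / 4) : ℝ) * 2 := by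
        apply mul_le_mul_of_nonneg_left _ (by positivity)
        calc (2 : ℝ) ^ (1 / 2 : ℝ) ≤ (2 : ℝ) ^ (1 : ℝ) :=
          Real.rpow_le_rpow_of_exponent_le (by norm_num) (by norm_num)
        _ = 2 := Real.rpow_one 2
    _ = 2 * (Q : ℝ) ^ (-(3 / 4) : ℝ) := by ring
  have h7 : Real.sqrt q * Real.log q ≤ (Q : ℝ) ^ (1 / 2 : ℝ) * Real.log Q := by
    rw [← Real.sqrt_eq_rpow]
    apply mul_le_mul (Real.sqrt_le_sqrt hqQ') (Real.log_le_log (by linarith) hqQ')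
      (Real.log_nonneg (by linarith)) (Real.sqrt_nonneg _)
  have h8 : ((NQ Q / h : ℕ) : ℝ) ^ (-s.re) ≤ 256 * (Q : ℝ) ^ (-(3 / 4) : ℝ) * (h : ℝ) ^ s.re := by
    calc ((NQ Q / h : ℕ) : ℝ) ^ (-s.re) ≤ (NQ Q : ℝ) ^ (-s.re) * (2 * h) ^ s.re := h3.trans_eq h4
    _ ≤ (2 * (Q : ℝ) ^ (-(3 / 4) : ℝ)) * (128 * (h : ℝ) ^ s.re) :=
        mul_le_mul h6 h5 (by positivity) (by positivity)
    _ = 256 * (Q : ℝ) ^ (-(3 / 4) : ℝ) * (h : ℝ) ^ s.re := by ring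
  have hlog0 : 0 ≤ Real.log q := Real.log_nonneg (by linarith)
  have hlogQ0 : 0 ≤ Real.log Q := Real.log_nonneg (by linarith)
  calc (h : ℝ) ^ (-(s + β)).re * (C * (1 + ‖s‖) * (Real.sqrt q * Real.log q) *
      ((NQ Q / h : ℕ) : ℝ) ^ (-s.re))
      ≤ (h : ℝ) ^ (13 - s.re) * (C * (1 + ‖s‖) * ((Q : ℝ) ^ (1 / 2 : ℝ) * Real.log Q) *
        (256 * (Q : ℝ) ^ (-(3 / 4) : ℝ) * (h : ℝ) ^ s.re)) := by
        apply mul_le_mul h1 _ (by positivity) (by positivity)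
        apply mul_le_mul _ h8 (by positivity) (by positivity)
        exact mul_le_mul_of_nonneg_left h7 (by positivity)
    _ = 256 * C * (1 + ‖s‖) * ((Q : ℝ) ^ (1 / 2 : ℝ) * (Q : ℝ) ^ (-(3 / 4) : ℝ)) * Real.log Q *
        ((h : ℝ) ^ (13 - s.re) * (h : ℝ) ^ s.re) := by ring
    _ = 256 * C * (1 + ‖s‖) * (Q : ℝ) ^ (-(1 / 4) : ℝ) * Real.log Q * (h : ℝ) ^ 13 := by
        rw [← Real.rpow_add (by linarith), ← Real.rpow_add (by linarith),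
          show (1 / 2 : ℝ) + -(3 / 4) = -(1 / 4) by norm_num,
          show (13 - s.re + s.re : ℝ) = ((13 : ℕ) : ℝ) by push_cast; ring, Real.rpow_natCast]

/-- part APXw -/
theorem apxw (hTL : S_TL) : S_APXw := by
  obtain ⟨C, hC, hTL⟩ := hTL
  refine ⟨25600 * 2 ^ 14 * C, by positivity, ?_⟩
  intro θ hθ hθ' Q q hq hqQ χ hχ s β hs hs2 hβ
  have hQ : 2 ≤ Q := hq.trans hqQ
  have hQ' : (2 : ℝ) ≤ Q := by exact_mod_cast hQ
  rw [ident θ Q q hθ hθ' hQ]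
  unfold MX
  rw [Finset.mul_sum, ← Finset.sum_sub_distrib]
  have e1 : ∀ h ∈ Icc 1 (yy θ Q), ‖LF q χ s * ((mo θ (Real.log Q) h : ℂ) * χ (h : ZMod q) *
      (h : ℂ) ^ (-(s + β))) - (mo θ (Real.log Q) h : ℂ) * χ (h : ZMod q) *
      (h : ℂ) ^ (-(s + β)) * ∑ m ∈ Icc 1 (NQ Q / h), χ (m : ZMod q) * (m : ℂ) ^ (-s)‖ ≤
      256 * C * (1 + ‖s‖) * (Q : ℝ) ^ (-(1 / 4) : ℝ) * Real.log Q * (yy θ Q : ℝ) ^ 13 := by
    intro h hh
    rw [Finset.mem_Icc] at hh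
    have hhN : h ≤ NQ Q := hh.2.trans (yy_le_NQ θ Q hθ' hQ)
    have hT := hTL q hq χ hχ s hs (NQ Q / h) (Nat.div_pos hhN hh.1)
    have e2 : LF q χ s * ((mo θ (Real.log Q) h : ℂ) * χ (h : ZMod q) *
      (h : ℂ) ^ (-(s + β))) - (mo θ (Real.log Q) h : ℂ) * χ (h : ZMod q) *
      (h : ℂ) ^ (-(s + β)) * ∑ m ∈ Icc 1 (NQ Q / h), χ (m : ZMod q) * (m : ℂ) ^ (-s) =
      ((mo θ (Real.log Q) h : ℂ) * χ (h : ZMod q)) * ((h : ℂ) ^ (-(s + β)) *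
        (LF q χ s - ∑ m ∈ Icc 1 (NQ Q / h), χ (m : ZMod q) * (m : ℂ) ^ (-s))) := by ring
    rw [e2, norm_mul, norm_mul, norm_mul, Complex.norm_natCast_cpow_of_pos hh.1]
    have h1 : ‖(mo θ (Real.log Q) h : ℂ)‖ * ‖χ (h : ZMod q)‖ ≤ 1 := by
      calc _ ≤ (1 : ℝ) * 1 := mul_le_mul (mo_bd _ _ _) (DirichletCharacter.norm_le_one χ _)
            (norm_nonneg _) zero_le_one
      _ = 1 := one_mul 1
    calc _ ≤ 1 * ((h : ℝ) ^ (-(s + β)).re *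
          ‖LF q χ s - ∑ m ∈ Icc 1 (NQ Q / h), χ (m : ZMod q) * (m : ℂ) ^ (-s)‖) :=
          mul_le_mul_of_nonneg_right h1 (by positivity)
    _ ≤ 1 * ((h : ℝ) ^ (-(s + β)).re * (C * (1 + ‖s‖) * (Real.sqrt q * Real.log q) *
          ((NQ Q / h : ℕ) : ℝ) ^ (-s.re))) := by
          rw [one_mul, one_mul]
          exact mul_le_mul_of_nonneg_left hT (by positivity)
    _ ≤ 256 * C * (1 + ‖s‖) * (Q : ℝ) ^ (-(1 / 4) : ℝ) * Real.log Q * (h : ℝ) ^ 13 := by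
          rw [one_mul]
          exact term_bdw C hC q Q h hq hqQ hh.1 hhN s β hs hs2 hβ
    _ ≤ 256 * C * (1 + ‖s‖) * (Q : ℝ) ^ (-(1 / 4) : ℝ) * Real.log Q * (yy θ Q : ℝ) ^ 13 := by
          have : (h : ℝ) ^ 13 ≤ (yy θ Q : ℝ) ^ 13 :=
            pow_le_pow_left₀ (by positivity) (by exact_mod_cast hh.2) 13
          have hlogQ0 : 0 ≤ Real.log Q := Real.log_nonneg (by linarith)
          exact mul_le_mul_of_nonneg_left this (by positivity)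
  refine (norm_sum_le _ _).trans ((Finset.sum_le_sum e1).trans ?_)
  rw [Finset.sum_const, Nat.card_Icc, nsmul_eq_mul, Nat.add_sub_cancel]
  have hlogQ0 : 0 ≤ Real.log Q := Real.log_nonneg (by linarith)
  have hy := yy_le θ Q hθ hQ
  have hlog : Real.log Q ≤ (Q : ℝ) ^ (1 / 100 : ℝ) / (1 / 100) :=
    Real.log_le_rpow_div (by linarith) (by norm_num)
  have hy2 : (yy θ Q : ℝ) ^ 14 ≤ 2 ^ 14 * (Q : ℝ) ^ (7 / 100 : ℝ) := by
    calc (yy θ Q : ℝ) ^ 14 ≤ (2 * (Q : ℝ) ^ θ) ^ 14 := pow_le_pow_left₀ (by positivity) hy 14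
    _ = 2 ^ 14 * (Q : ℝ) ^ (θ * (14 : ℕ)) := by
        rw [mul_pow, Real.rpow_mul_natCast (by positivity)]
    _ ≤ 2 ^ 14 * (Q : ℝ) ^ (7 / 100 : ℝ) := by
        apply mul_le_mul_of_nonneg_left _ (by norm_num)
        apply Real.rpow_le_rpow_of_exponent_le (by linarith)
        push_cast
        linarith
  calc (yy θ Q : ℝ) * (256 * C * (1 + ‖s‖) * (Q : ℝ) ^ (-(1 / 4) : ℝ) * Real.log Q *
        (yy θ Q : ℝ) ^ 13)
      = 256 * C * (1 + ‖s‖) * (Q : ℝ) ^ (-(1 / 4) : ℝ) * (Real.log Q * (yy θ Q : ℝ) ^ 14) := by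
        ring
    _ ≤ 256 * C * (1 + ‖s‖) * (Q : ℝ) ^ (-(1 / 4) : ℝ) * (((Q : ℝ) ^ (1 / 100 : ℝ) / (1 / 100)) *
        (2 ^ 14 * (Q : ℝ) ^ (7 / 100 : ℝ))) := by
        apply mul_le_mul_of_nonneg_left _ (by positivity)
        exact mul_le_mul hlog hy2 (by positivity) (by positivity)
    _ = 25600 * 2 ^ 14 * C * (1 + ‖s‖) * ((Q : ℝ) ^ (-(1 / 4) : ℝ) * (Q : ℝ) ^ (1 / 100 : ℝ) *
        (Q : ℝ) ^ (7 / 100 : ℝ)) := by ring
    _ ≤ 25600 * 2 ^ 14 * C * (1 + ‖s‖) * (Q : ℝ) ^ (-(1 / 6) : ℝ) := by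
        rw [← Real.rpow_add (by linarith), ← Real.rpow_add (by linarith)]
        apply mul_le_mul_of_nonneg_left _ (by positivity)
        exact Real.rpow_le_rpow_of_exponent_le (by linarith) (by norm_num)

end

end Pool.Agent.W198.AF.Apxw
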